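import Mathlib
import Pool.Agent.H36.Kerv.Main

/-!
# The extension of the free group on `b, c` by the equation `t⁻¹ c t t b = 1`

It is the free group on `c` and `t`, with `b = t⁻² c⁻¹ t`.
-/

set_option autoImplicit false

namespace Pool.Agent.H44.Kerv

/-- The free group on two letters, `b = of false` and `c = of true`. -/
abbrev G : Type := FreeGroup Bool

/-- The letter `b`. -/
def b : G := FreeGroup.of false

/-- The letter `c`. -/
def c : G := FreeGroup.of true

/-- The free product of `G` and the free group on one letter `t`. -/
abbrev P : Type := Monoid.Coprod G (FreeGroup (Fin 1))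

/-- The variable `t`. -/
def t : P := Monoid.Coprod.inr (FreeGroup.of 0)

/-- The word `t⁻¹ c t t b`. -/
def w : P := t⁻¹ * Monoid.Coprod.inl c * t * t * Monoid.Coprod.inl b

/-- The extension `H = (G * ⟨t⟩) / ⟨⟨w⟩⟩`. -/
abbrev H : Type := P ⧸ Subgroup.normalClosure ({w} : Set P)

/-- The map `G → H` induced by the inclusion of `G`. -/
def toH : G →* H := (QuotientGroup.mk' (Subgroup.normalClosure ({w} : Set P))).comp
  Monoid.Coprod.inl

/-- The word `c⁴ b⁻¹ c⁻¹ b c b⁻¹ c⁻¹ b² c b⁻¹ c⁻¹ b² c⁻¹ b²`. -/
def W : G :=
  c * c * c * c * b⁻¹ * c⁻¹ * b * c * b⁻¹ * c⁻¹ * b * b * c * b⁻¹ * c⁻¹ * b * b * c⁻¹ * b * b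

/-- The nine elements. -/
def g : Fin 9 → G := ![W, c, c⁻¹, b⁻¹, c⁻¹, b⁻¹, c⁻¹, b⁻¹, b⁻¹]

/-- The image of `t` in `H`. -/
def T : H := QuotientGroup.mk' (Subgroup.normalClosure ({w} : Set P)) t

theorem rel : T⁻¹ * toH c * T * T * toH b = 1 := by
  have h1 : w ∈ Subgroup.normalClosure ({w} : Set P) :=
    Subgroup.subset_normalClosure (Set.mem_singleton w)
  have h2 : QuotientGroup.mk' (Subgroup.normalClosure ({w} : Set P)) w = 1 :=
    (QuotientGroup.eq_one_iff w).2 h1
  exact h2

theorem toH_b : toH b = T⁻¹ * T⁻¹ * (toH c)⁻¹ * T := by
  have := eq_inv_of_mul_eq_one_right rel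
  rw [this]; group

/-- `b ↦ t⁻² c⁻¹ t`, `c ↦ c`, where `t = of false`, `c = of true`. -/
def gen : Bool → FreeGroup Bool
  | false => (FreeGroup.of false)⁻¹ * (FreeGroup.of false)⁻¹ * (FreeGroup.of true)⁻¹ *
      FreeGroup.of false
  | true => FreeGroup.of true

/-- The map of free groups. -/
def emb : G →* FreeGroup Bool := FreeGroup.lift gen

theorem emb_b : emb b = (FreeGroup.of false)⁻¹ * (FreeGroup.of false)⁻¹ * (FreeGroup.of true)⁻¹ *
    FreeGroup.of false := by simp [emb, b, gen]

theorem emb_c : emb c = FreeGroup.of true := by simp [emb, c, gen]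

/-- From the free product to the free group on `t, c`. -/
def phi0 : P →* FreeGroup Bool := Monoid.Coprod.lift emb (FreeGroup.lift fun _ => FreeGroup.of false)

theorem phi0_w : phi0 w = 1 := by
  simp only [phi0, w, t, map_mul, map_inv, Monoid.Coprod.lift_apply_inl,
    Monoid.Coprod.lift_apply_inr, FreeGroup.lift_apply_of, emb_b, emb_c]
  group

/-- From `H` to the free group on `t, c`. -/
def phi : H →* FreeGroup Bool := QuotientGroup.lift _ phi0 (by
  intro x hx
  have : Subgroup.normalClosure ({w} : Set P) ≤ phi0.ker :=
    Subgroup.normalClosure_le_normal (by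
      intro y hy
      rw [Set.mem_singleton_iff] at hy
      subst hy
      exact phi0_w)
  exact this hx)

/-- The inverse. -/
def psi : FreeGroup Bool →* H := FreeGroup.lift fun x => if x then toH c else T

theorem phi_toH (x : G) : phi (toH x) = emb x := by
  change phi0 (Monoid.Coprod.inl x) = emb x
  simp [phi0]

theorem phi_T : phi T = FreeGroup.of false := by
  change phi0 t = _
  simp [phi0, t]

theorem phi_psi : phi.comp psi = MonoidHom.id _ := by
  apply FreeGroup.ext_hom
  intro x
  cases x
  · simp [psi, phi_T]
  · simp [psi, phi_toH, emb_c]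

theorem psi_phi : psi.comp phi = MonoidHom.id _ := by
  apply QuotientGroup.monoidHom_ext
  apply Monoid.Coprod.hom_ext
  · apply FreeGroup.ext_hom
    intro x
    have h1 : ((psi.comp phi).comp (QuotientGroup.mk' (Subgroup.normalClosure ({w} : Set P)))).comp
        Monoid.Coprod.inl (FreeGroup.of x) = psi (phi (toH (FreeGroup.of x))) := rfl
    rw [h1, phi_toH]
    cases x
    · have : emb (FreeGroup.of false) = emb b := rfl
      rw [this, emb_b]
      simp only [map_mul, map_inv]
      have e1 : psi (FreeGroup.of false) = T := by simp [psi]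
      have e2 : psi (FreeGroup.of true) = toH c := by simp [psi]
      rw [e1, e2, ← toH_b]
      rfl
    · have : emb (FreeGroup.of true) = emb c := rfl
      rw [this, emb_c]
      have e2 : psi (FreeGroup.of true) = toH c := by simp [psi]
      rw [e2]
      rfl
  · apply FreeGroup.ext_hom
    intro x
    have hx : x = 0 := Subsingleton.elim _ _
    subst hx
    have h1 : ((psi.comp phi).comp (QuotientGroup.mk' (Subgroup.normalClosure ({w} : Set P)))).comp
        Monoid.Coprod.inr (FreeGroup.of 0) = psi (phi T) := rfl
    rw [h1, phi_T]
    have e1 : psi (FreeGroup.of false) = T := by simp [psi]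
    rw [e1]
    rfl

/-- `H` is free on `t` and `c`. -/
def equiv : H ≃* FreeGroup Bool := MonoidHom.toMulEquiv phi psi psi_phi phi_psi

theorem equiv_apply (x : H) : equiv x = phi x := rfl

/-- The inverse of the map on abelianizations. -/
def back : FreeGroup Bool →* Abelianization G :=
  FreeGroup.lift fun x => if x then Abelianization.of c else Abelianization.of (b⁻¹ * c⁻¹)

theorem ab_bij : Function.Bijective (Abelianization.map toH) := by
  let r : Abelianization H →* Abelianization G := Abelianization.lift (back.comp phi)
  have h1 : r.comp (Abelianization.map toH) = MonoidHom.id _ := by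
    apply Abelianization.hom_ext
    apply FreeGroup.ext_hom
    intro x
    have e : (r.comp (Abelianization.map toH)).comp Abelianization.of (FreeGroup.of x)
        = back (phi (toH (FreeGroup.of x))) := by
      simp [r]
    rw [e, phi_toH]
    cases x
    · have : emb (FreeGroup.of false) = emb b := rfl
      rw [this, emb_b]
      simp only [map_mul, map_inv, back, FreeGroup.lift_apply_of, if_true, Bool.false_eq_true,
        if_false, MonoidHom.comp_apply, MonoidHom.id_apply]
      have : Abelianization.of (FreeGroup.of false : G) = Abelianization.of b := rfl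
      rw [this]
      generalize Abelianization.of b = B
      generalize Abelianization.of c = C
      rw [mul_comm B⁻¹ C⁻¹, mul_comm _ (C⁻¹ * B⁻¹)]
      group
    · have : emb (FreeGroup.of true) = emb c := rfl
      rw [this, emb_c]
      simp [back]
      rfl
  have h2 : (Abelianization.map toH).comp r = MonoidHom.id _ := by
    have h3 : ((Abelianization.map toH).comp back) = Abelianization.of.comp psi := by
      apply FreeGroup.ext_hom
      intro x
      cases x
      · simp only [MonoidHom.comp_apply, back, psi, FreeGroup.lift_apply_of, Bool.false_eq_true,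
          if_false, Abelianization.map_of]
        rw [map_mul, map_inv, map_inv, toH_b]
        simp only [map_mul, map_inv]
        generalize Abelianization.of T = B
        generalize Abelianization.of (toH c) = C
        rw [mul_comm (B⁻¹ * B⁻¹) C⁻¹]
        group
      · simp [back, psi]
    apply Abelianization.hom_ext
    have h4 : ((Abelianization.map toH).comp r).comp Abelianization.of
        = (((Abelianization.map toH).comp back)).comp phi := by
      refine MonoidHom.ext fun x => ?_
      simp [r]
    rw [h4, h3, MonoidHom.comp_assoc, psi_phi]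
    rfl
  refine ⟨Function.LeftInverse.injective (g := r) fun x => DFunLike.congr_fun h1 x,
    Function.RightInverse.surjective (g := r) fun x => DFunLike.congr_fun h2 x⟩

end Pool.Agent.H44.Kerv
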