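import Mathlib
import Pool.Agent.H44.Kerv.Base

/-!
# The map of `G` into the extension is injective (ping-pong)
-/

set_option autoImplicit false

namespace Pool.Agent.H44.Kerv

open Pool.Agent.H36.Kerv (push reduce_cons)

theorem toWord_cons (x : Bool × Bool) (y : FreeGroup Bool) :
    (FreeGroup.mk [x] * y).toWord = push x y.toWord := by
  have h1 : FreeGroup.mk [x] * y = FreeGroup.mk (x :: y.toWord) := by
    conv_lhs => rw [← FreeGroup.mk_toWord (x := y)]
    rfl
  rw [h1, FreeGroup.toWord_mk, reduce_cons, FreeGroup.reduce_toWord]

/-- The elements whose reduced word starts with `p`. -/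
def pre (p : List (Bool × Bool)) : Set (FreeGroup Bool) := {x | p <+: x.toWord}

/-- The attracting sets. -/
def X : Bool → Set (FreeGroup Bool)
  | false => pre [(false, false), (false, false), (true, false)]
  | true => pre [(true, true)]

/-- The repelling sets. -/
def Y : Bool → Set (FreeGroup Bool)
  | false => pre [(false, false), (true, true)]
  | true => pre [(true, false)]

theorem pre_disj {p q : List (Bool × Bool)} (h1 : ¬ p <+: q) (h2 : ¬ q <+: p) :
    Disjoint (pre p) (pre q) := by
  rw [Set.disjoint_left]
  intro x hp hq
  rcases List.prefix_or_prefix_of_prefix hp hq with h | h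
  · exact h1 h
  · exact h2 h

theorem stepX (L : List (Bool × Bool)) (h : ¬ [(false, false), (true, true)] <+: L) :
    [(false, false), (false, false), (true, false)] <+:
      push (false, false) (push (false, false) (push (true, false) (push (false, true) L))) := by
  rcases L with _ | ⟨⟨y1, y2⟩, L1⟩
  · simp [push]
  rcases L1 with _ | ⟨⟨z1, z2⟩, L2⟩
  · cases y1 <;> cases y2 <;> simp [push]
  · cases y1 <;> cases y2 <;> cases z1 <;> cases z2 <;> simp_all [push]

theorem stepY (L : List (Bool × Bool))
    (h : ¬ [(false, false), (false, false), (true, false)] <+: L) :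
    [(false, false), (true, true)] <+:
      push (false, false) (push (true, true) (push (false, true) (push (false, true) L))) := by
  rcases L with _ | ⟨⟨y1, y2⟩, L1⟩
  · simp [push]
  rcases L1 with _ | ⟨⟨z1, z2⟩, L2⟩
  · cases y1 <;> cases y2 <;> simp [push]
  rcases L2 with _ | ⟨⟨u1, u2⟩, L3⟩
  · cases y1 <;> cases y2 <;> cases z1 <;> cases z2 <;> simp_all [push]
  · cases y1 <;> cases y2 <;> cases z1 <;> cases z2 <;> cases u1 <;> cases u2 <;>
      simp_all [push]

theorem stepC (L : List (Bool × Bool)) (h : ¬ [(true, false)] <+: L) :
    [(true, true)] <+: push (true, true) L := by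
  rcases L with _ | ⟨⟨y1, y2⟩, L1⟩
  · simp [push]
  · cases y1 <;> cases y2 <;> simp_all [push]

theorem stepC' (L : List (Bool × Bool)) (h : ¬ [(true, true)] <+: L) :
    [(true, false)] <+: push (true, false) L := by
  rcases L with _ | ⟨⟨y1, y2⟩, L1⟩
  · simp [push]
  · cases y1 <;> cases y2 <;> simp_all [push]

theorem emb_inj : Function.Injective emb := by
  have hdec : ∀ p q : List (Bool × Bool), (¬ p <+: q) → (¬ q <+: p) → Disjoint (pre p) (pre q) :=
    fun p q h1 h2 => pre_disj h1 h2
  refine FreeGroup.injective_lift_of_ping_pong gen X Y ?_ ?_ ?_ ?_ ?_ ?_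
  · intro i
    cases i
    · exact ⟨FreeGroup.mk [(false, false), (false, false), (true, false)], by
        simp only [X, pre, Set.mem_setOf_eq, FreeGroup.toWord_mk]; decide⟩
    · exact ⟨FreeGroup.mk [(true, true)], by
        simp only [X, pre, Set.mem_setOf_eq, FreeGroup.toWord_mk]; decide⟩
  · intro i j hij
    cases i <;> cases j
    · exact absurd rfl hij
    · exact pre_disj (by decide) (by decide)
    · exact pre_disj (by decide) (by decide)
    · exact absurd rfl hij
  · intro i j hij
    cases i <;> cases j
    · exact absurd rfl hij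
    · exact pre_disj (by decide) (by decide)
    · exact pre_disj (by decide) (by decide)
    · exact absurd rfl hij
  · intro i j
    cases i <;> cases j <;> exact pre_disj (by decide) (by decide)
  · intro i
    rintro _ ⟨x, hx, rfl⟩
    have hx' : x ∉ Y i := hx
    cases i
    · have e : gen false • x = FreeGroup.mk [(false, false)] * (FreeGroup.mk [(false, false)] *
          (FreeGroup.mk [(true, false)] * (FreeGroup.mk [(false, true)] * x))) := by
        simp only [smul_eq_mul, gen, ← mul_assoc]
        rfl
      change gen false • x ∈ pre _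
      rw [e]
      simp only [pre, Set.mem_setOf_eq, toWord_cons]
      exact stepX _ hx'
    · have e : gen true • x = FreeGroup.mk [(true, true)] * x := rfl
      change gen true • x ∈ pre _
      rw [e]
      simp only [pre, Set.mem_setOf_eq, toWord_cons]
      exact stepC _ hx'
  · intro i
    rintro _ ⟨x, hx, rfl⟩
    have hx' : x ∉ X i := hx
    cases i
    · have e : gen⁻¹ false • x = FreeGroup.mk [(false, false)] * (FreeGroup.mk [(true, true)] *
          (FreeGroup.mk [(false, true)] * (FreeGroup.mk [(false, true)] * x))) := by
        simp only [smul_eq_mul, Pi.inv_apply, gen, mul_inv_rev, inv_inv, ← mul_assoc]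
        rfl
      change gen⁻¹ false • x ∈ pre _
      rw [e]
      simp only [pre, Set.mem_setOf_eq, toWord_cons]
      exact stepY _ hx'
    · have e : gen⁻¹ true • x = FreeGroup.mk [(true, false)] * x := rfl
      change gen⁻¹ true • x ∈ pre _
      rw [e]
      simp only [pre, Set.mem_setOf_eq, toWord_cons]
      exact stepC' _ hx'

theorem toH_inj : Function.Injective toH := by
  intro x y h
  apply emb_inj
  rw [← phi_toH, ← phi_toH, h]

end Pool.Agent.H44.Kerv
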