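import Mathlib
import Pool.Agent.H44.Kerv.Inj

/-!
# The product of the nine classes
-/

set_option autoImplicit false

namespace Pool.Agent.H44.Kerv

theorem prodH : ∃ h : Fin 9 → H,
    (List.ofFn fun i => h i * toH (g i) * (h i)⁻¹).prod = 1 := by
  have key := Pool.Agent.H36.Kerv.ext_identity2 (toH b) (toH c) T rel
  refine ⟨![1, T⁻¹, toH c * toH c * toH c * toH c * T⁻¹,
      toH c * toH c * toH c * toH c * (toH b)⁻¹ * (toH c)⁻¹ * T,
      toH c * toH c * toH c * toH c * (toH b)⁻¹ * (toH c)⁻¹ * toH b * toH c * T⁻¹,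
      toH c * toH c * toH c * toH c * (toH b)⁻¹ * (toH c)⁻¹ * toH b * toH c * (toH b)⁻¹ *
        (toH c)⁻¹ * T,
      toH c * toH c * toH c * toH c * (toH b)⁻¹ * (toH c)⁻¹ * toH b * toH c * (toH b)⁻¹ *
        (toH c)⁻¹ * toH b * toH b * toH c * T⁻¹,
      toH c * toH c * toH c * toH c * (toH b)⁻¹ * (toH c)⁻¹ * toH b * toH c * (toH b)⁻¹ *
        (toH c)⁻¹ * toH b * toH b * toH c * (toH b)⁻¹ * (toH c)⁻¹ * T,
      toH c * toH c * toH c * toH c * (toH b)⁻¹ * (toH c)⁻¹ * toH b * toH c * (toH b)⁻¹ *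
        (toH c)⁻¹ * toH b * toH b * toH c * (toH b)⁻¹ * (toH c)⁻¹ * toH b * toH b *
        (toH c)⁻¹ * T], ?_⟩
  have hW : toH W = toH c * toH c * toH c * toH c * (toH b)⁻¹ * (toH c)⁻¹ * toH b * toH c *
      (toH b)⁻¹ * (toH c)⁻¹ * toH b * toH b * toH c * (toH b)⁻¹ * (toH c)⁻¹ * toH b * toH b *
      (toH c)⁻¹ * toH b * toH b := by
    simp only [W, map_mul, map_inv]
  have hB : toH b⁻¹ = (toH b)⁻¹ := map_inv _ _
  have hC : toH c⁻¹ = (toH c)⁻¹ := map_inv _ _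
  simp only [g, List.ofFn_succ, List.ofFn_zero, List.prod_cons, List.prod_nil,
    Matrix.cons_val_zero, Matrix.cons_val_succ]
  rw [hW, hB, hC]
  exact key

theorem notG : ¬ ∃ x : Fin 9 → G, (List.ofFn fun i => x i * g i * (x i)⁻¹).prod = 1 := by
  rintro ⟨x, hx⟩
  simp only [g, List.ofFn_succ, List.ofFn_zero, List.prod_cons, List.prod_nil,
    Matrix.cons_val_zero, Matrix.cons_val_succ] at hx
  refine Pool.Agent.H36.Kerv.not_exists (x 0) (x 1) (x 2) (x 3) (x 4) (x 5) (x 6) (x 7) (x 8) ?_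
  rw [mul_one] at hx
  exact hx

end Pool.Agent.H44.Kerv
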