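import Mathlib
import Pool.Agent.H44.Kerv.Prod

/-!
# Products of conjugacy classes are not preserved by Kervaire extensions

`G` is the free group on `b, c`, the system is the single equation `w = t⁻¹ c t t b` (exponent sum
one) and `H = (G * ⟨t⟩) / ⟨⟨w⟩⟩`.  Then `H` is free on `c, t`, the map `G → H` is injective and
induces an isomorphism of the abelianizations, and for the nine elements `g_i` of `G` the identity
is a product of `H`-conjugates of `g_1, ..., g_9` but not a product of `G`-conjugates.
-/

set_option autoImplicit false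

open Pool.Agent.H44.Kerv

namespace Pool.Agent.H44.Kerv.Free

theorem result :
    Monoid.Coprod.lift (1 : G →* Multiplicative ℤ)
        (FreeGroup.lift fun _ : Fin 1 => Multiplicative.ofAdd (1 : ℤ)) w
      = Multiplicative.ofAdd 1 ∧
    (∃ e : H ≃* FreeGroup Bool, e T = FreeGroup.of false ∧ e (toH c) = FreeGroup.of true) ∧
    Function.Injective toH ∧
    Function.Bijective (Abelianization.map toH) ∧
    (∃ h : Fin 9 → H, (List.ofFn fun i => h i * toH (g i) * (h i)⁻¹).prod = 1) ∧
    ¬ ∃ x : Fin 9 → G, (List.ofFn fun i => x i * g i * (x i)⁻¹).prod = 1 := by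
  refine ⟨?_, ⟨equiv, phi_T, ?_⟩, toH_inj, ab_bij, prodH, notG⟩
  · simp [w, t]
  · rw [equiv_apply, phi_toH, emb_c]

end Pool.Agent.H44.Kerv.Free
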